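import Pool.Agent.Helper67.FKF.P0

/-!
# Theorem F: normalised phases
-/

namespace Pool.Agent.Helper27.FKF

/-- Normalised phases: if `r` is rational with denominator `q` then `2 q θ` is an odd integer. -/
def NormPhase (r θ : ℝ) : Prop :=
  ∀ s : ℚ, (s : ℝ) = r → ∃ z : ℤ, 2 * (s.den : ℝ) * θ = 2 * z + 1

theorem P0 {r θ : ℝ} (h0 : 0 < r) (h1 : r < 1) (hθ : 0 ≤ θ ∧ θ < 1) :
    ∃ θ' : ℝ, (0 ≤ θ' ∧ θ' < 1) ∧ NormPhase r θ' ∧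
      ∀ j : ℤ, ⌊(j : ℝ) * r + θ'⌋ = ⌊(j : ℝ) * r + θ⌋ :=
  Pool.Agent.Helper67.FKF.P0' h0 h1 hθ

end Pool.Agent.Helper27.FKF
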