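import Pool.Agent.Helper27.FK.Two

/-!
# Theorem F, piece P2: the structure theorem from the continuous identity along a rational line
-/

open Finset Filter Topology

namespace Pool.Agent.Helper27.FKF

open Pool.Agent.Helper27.FK
open scoped Classical

variable {n : ℕ}

/-- the hypotheses of P2 -/
structure Hyp (r θ : Fin n → ℝ) (v : Fin n → ℤ) (c : ℝ) : Prop where
  pos : ∀ i, 0 < r i
  lt : ∀ i, r i < 1
  sum : ∑ i, r i = 1
  ne : v ≠ 0
  nz : ∀ i, v i = 0 → ∀ j z : ℤ, θ i + j * r i ≠ z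
  star : ∀ (j : ℤ) (t : ℝ), (∀ i, ∀ z : ℤ, θ i + j * r i + t * v i ≠ z) →
    ∑ i, Int.fract (θ i + j * r i + t * v i) = c

/-- coordinates along the line in the fibre `j` -/
def X (r θ : Fin n → ℝ) (v : Fin n → ℤ) (j : ℤ) (t : ℝ) (i : Fin n) : ℝ :=
  θ i + j * r i + t * v i

/-- generic times -/
def Gen (r θ : Fin n → ℝ) (v : Fin n → ℤ) (t : ℝ) : Prop :=
  ∀ (j : ℤ) (i : Fin n) (z : ℤ), X r θ v j t i ≠ z

variable {r θ : Fin n → ℝ} {v : Fin n → ℤ} {c : ℝ}

lemma X_succ (j : ℤ) (t : ℝ) (i : Fin n) : X r θ v (j + 1) t i = X r θ v j t i + r i := by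
  unfold X; push_cast; ring

lemma X_add (j : ℤ) (t s : ℝ) (i : Fin n) : X r θ v j (t + s) i = X r θ v j t i + s * v i := by
  unfold X; ring

lemma X_neg (j : ℤ) (t : ℝ) (i : Fin n) : X r θ (-v) j t i = X r θ v j (-t) i := by
  unfold X; push_cast [Pi.neg_apply]; ring

namespace Hyp

lemma neg (h : Hyp r θ v c) : Hyp r θ (-v) c where
  pos := h.pos
  lt := h.lt
  sum := h.sum
  ne := by
    intro h0
    apply h.ne
    rw [← neg_neg v, h0, neg_zero]
  nz := fun i hi => h.nz i (by simpa using hi)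
  star := by
    intro j t ht
    have e : ∀ i, θ i + j * r i + t * ((-v) i : ℤ) = θ i + j * r i + (-t) * v i := by
      intro i; push_cast [Pi.neg_apply]; ring
    have := h.star j (-t) (fun i z => by rw [← e i]; exact ht i z)
    rw [← this]
    exact Finset.sum_congr rfl fun i _ => by rw [e i]

lemma gen_neg {t : ℝ} (ht : Gen r θ (-v) t) : Gen r θ v (-t) := by
  intro j i z
  rw [← X_neg]
  exact ht j i z

lemma countable_compl (h : Hyp r θ v c) : {t | ¬ Gen r θ v t}.Countable := by
  have hsub : {t | ¬ Gen r θ v t} ⊆ ⋃ p : ℤ × Fin n × ℤ, {t | X r θ v p.1 t p.2.1 = p.2.2} := by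
    intro t ht
    simp only [Gen, Set.mem_ofPred_eq, not_forall, not_not] at ht
    obtain ⟨j, i, z, hz⟩ := ht
    exact Set.mem_iUnion.2 ⟨(j, i, z), hz⟩
  apply Set.Countable.mono hsub
  apply Set.countable_iUnion
  rintro ⟨j, i, z⟩
  apply Set.Subsingleton.countable
  intro t ht t' ht'
  simp only [Set.mem_ofPred_eq, X] at ht ht'
  by_cases hv : v i = 0
  · exfalso
    rw [hv] at ht
    exact h.nz i hv j z (by simpa using ht)
  · have hvr : (v i : ℝ) ≠ 0 := by exact_mod_cast hv
    exact mul_right_cancel₀ hvr (by linarith)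

lemma exists_gen (h : Hyp r θ v c) {a b : ℝ} (hab : a < b) : ∃ t, a < t ∧ t < b ∧ Gen r θ v t := by
  obtain ⟨t, ht, ht2⟩ := (h.countable_compl.dense_compl ℝ).exists_mem_open isOpen_Ioo
    (Set.nonempty_Ioo.2 hab)
  refine ⟨t, ht2.1, ht2.2, ?_⟩
  simpa using ht

/-- the sum of fractional parts at generic times -/
lemma sum_eq (h : Hyp r θ v c) {t : ℝ} (ht : Gen r θ v t) (j : ℤ) :
    ∑ i, Int.fract (X r θ v j t i) = c := h.star j t (fun i z => ht j i z)

/-- exactly one letter is active at a generic time -/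
lemma uniq (h : Hyp r θ v c) {t : ℝ} (ht : Gen r θ v t) (j : ℤ) :
    ∃! i, 1 - r i ≤ Int.fract (X r θ v j t i) := by
  classical
  have h1 := h.sum_eq ht j
  have h2 := h.sum_eq ht (j + 1)
  have hfl : ∀ i, ⌊X r θ v (j + 1) t i⌋ - ⌊X r θ v j t i⌋ =
      if 1 - r i ≤ Int.fract (X r θ v j t i) then (1 : ℤ) else 0 := by
    intro i
    rw [X_succ]
    have hp := h.pos i
    have hl := h.lt i
    set y := X r θ v j t i with hy
    have hfr := Int.fract_nonneg y
    have hfr1 := Int.fract_lt_one y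
    have hfloor : y = ⌊y⌋ + Int.fract y := (Int.floor_add_fract y).symm
    split_ifs with hc
    · have : ⌊y + r i⌋ = ⌊y⌋ + 1 := by
        rw [Int.floor_eq_iff]
        push_cast
        constructor <;> linarith
      omega
    · push Not at hc
      have : ⌊y + r i⌋ = ⌊y⌋ := by
        rw [Int.floor_eq_iff]
        constructor <;> linarith
      omega
  have h4 : ∀ i, Int.fract (X r θ v (j + 1) t i) - Int.fract (X r θ v j t i) =
      r i - ((⌊X r θ v (j + 1) t i⌋ : ℝ) - (⌊X r θ v j t i⌋ : ℝ)) := by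
    intro i
    unfold Int.fract
    rw [X_succ]
    ring
  have h5 : ∑ i, ((⌊X r θ v (j + 1) t i⌋ : ℝ) - (⌊X r θ v j t i⌋ : ℝ)) = 1 := by
    have : ∑ i, (Int.fract (X r θ v (j + 1) t i) - Int.fract (X r θ v j t i)) = 0 := by
      rw [Finset.sum_sub_distrib, h1, h2, sub_self]
    rw [Finset.sum_congr rfl fun i _ => h4 i, Finset.sum_sub_distrib, h.sum] at this
    linarith
  have h6 : ∑ i, (⌊X r θ v (j + 1) t i⌋ - ⌊X r θ v j t i⌋) = 1 := by exact_mod_cast h5
  rw [Finset.sum_congr rfl fun i _ => hfl i, Finset.sum_boole] at h6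
  have h7 : (Finset.univ.filter fun i => 1 - r i ≤ Int.fract (X r θ v j t i)).card = 1 := by
    exact_mod_cast h6
  obtain ⟨i₀, hi₀⟩ := Finset.card_eq_one.1 h7
  refine ⟨i₀, ?_, ?_⟩
  · have : i₀ ∈ ({i₀} : Finset (Fin n)) := Finset.mem_singleton_self _
    rw [← hi₀, Finset.mem_filter] at this
    exact this.2
  · intro i hi
    have : i ∈ (Finset.univ.filter fun i => 1 - r i ≤ Int.fract (X r θ v j t i)) :=
      Finset.mem_filter.2 ⟨Finset.mem_univ _, hi⟩
    rw [hi₀] at this
    exact Finset.mem_singleton.1 this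

/-- letter `i` crosses an integer at time `t` in the fibre `j` -/
def _root_.Pool.Agent.Helper27.FKF.Cross (r θ : Fin n → ℝ) (v : Fin n → ℤ) (j : ℤ) (t : ℝ)
    (i : Fin n) : Prop := ∃ z : ℤ, X r θ v j t i = z

lemma cross_neg {j : ℤ} {t : ℝ} {i : Fin n} :
    Cross r θ (-v) j t i ↔ Cross r θ v j (-t) i := by
  unfold Cross
  rw [X_neg]

/-- a positive letter is active just before a crossing -/
lemma active_before (h : Hyp r θ v c) {j : ℤ} {t s : ℝ} {i : Fin n} (hv : 0 < v i)
    (hc : Cross r θ v j t i) (h1 : t - r i / v i < s) (h2 : s < t) :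
    1 - r i ≤ Int.fract (X r θ v j s i) := by
  obtain ⟨z, hz⟩ := hc
  have hvr : (0 : ℝ) < v i := by exact_mod_cast hv
  have e : X r θ v j s i = z - (t - s) * v i := by
    have : s = t + (s - t) := by ring
    rw [this, X_add, hz]
    ring
  have hlt : (t - s) * v i < r i := by
    have : t - s < r i / v i := by linarith
    rwa [lt_div_iff₀ hvr] at this
  have hpos : 0 < (t - s) * v i := mul_pos (by linarith) hvr
  have hl := h.lt i
  have : ⌊X r θ v j s i⌋ = z - 1 := by
    rw [Int.floor_eq_iff, e]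
    push_cast
    constructor <;> linarith
  rw [Int.fract, this, e]
  push_cast
  linarith

/-- a negative letter is active just after a crossing -/
lemma active_after (h : Hyp r θ v c) {j : ℤ} {t s : ℝ} {i : Fin n} (hv : v i < 0)
    (hc : Cross r θ v j t i) (h1 : t < s) (h2 : s < t + r i / (-v i : ℤ)) :
    1 - r i ≤ Int.fract (X r θ v j s i) := by
  have h' := h.neg
  have hc' : Cross r θ (-v) j (-t) i := by rw [cross_neg, neg_neg]; exact hc
  have hv' : 0 < (-v) i := by simpa using hv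
  have := h'.active_before (s := -s) hv' hc' (by simp only [Pi.neg_apply]; linarith) (by linarith)
  rwa [X_neg, neg_neg] at this

/-- if a positive letter is active at `s` then it crosses within `(s, s + r i / v i]` -/
lemma cross_of_active_pos {j : ℤ} {s : ℝ} {i : Fin n} (hv : 0 < v i)
    (ha : 1 - r i ≤ Int.fract (X r θ v j s i)) :
    ∃ t, s < t ∧ t ≤ s + r i / v i ∧ Cross r θ v j t i := by
  have hvr : (0 : ℝ) < v i := by exact_mod_cast hv
  set y := X r θ v j s i with hy
  have hfr1 := Int.fract_lt_one y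
  refine ⟨s + (1 - Int.fract y) / v i, ?_, ?_, ?_⟩
  · have : 0 < (1 - Int.fract y) / v i := div_pos (by linarith) hvr
    linarith
  · have : (1 - Int.fract y) / v i ≤ r i / v i := by gcongr; linarith
    linarith
  · refine ⟨⌊y⌋ + 1, ?_⟩
    rw [X_add, div_mul_cancel₀ _ hvr.ne', ← hy]
    have := Int.floor_add_fract y
    push_cast
    linarith

lemma cross_of_active_neg {j : ℤ} {s : ℝ} {i : Fin n} (hv : v i < 0)
    (ha : 1 - r i ≤ Int.fract (X r θ v j s i)) :
    ∃ t, t < s ∧ s ≤ t + r i / (-v i : ℤ) ∧ Cross r θ v j t i := by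
  have hv' : 0 < (-v) i := by simpa using hv
  have ha' : 1 - r i ≤ Int.fract (X r θ (-v) j (-s) i) := by rwa [X_neg, neg_neg]
  obtain ⟨t, h1, h2, h3⟩ := cross_of_active_pos hv' ha'
  refine ⟨-t, by linarith, ?_, ?_⟩
  · simp only [Pi.neg_apply] at h2; linarith
  · rw [← cross_neg]; exact h3

/-- times of crossings of a letter are unbounded -/
lemma exists_cross_gt {j : ℤ} {i : Fin n} (hv : v i ≠ 0) (a : ℝ) :
    ∃ t, a < t ∧ Cross r θ v j t i := by
  have hvr : (v i : ℝ) ≠ 0 := by exact_mod_cast hv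
  -- t = (z - θ - j r)/v with z = v * M for large M
  obtain ⟨M, hM⟩ := exists_nat_gt (a + (θ i + j * r i) / v i)
  refine ⟨M - (θ i + j * r i) / v i, by linarith, v i * M, ?_⟩
  unfold X
  push_cast
  field_simp
  ring

end Hyp

/-! ### the jump comparison -/

lemma fract_right (y w : ℝ) : ∀ᶠ s in 𝓝[>] (0 : ℝ),
    Int.fract (y + s * w) = Int.fract y + s * w +
      (if (∃ z : ℤ, y = z) ∧ w < 0 then 1 else 0) := by
  have hy0 := Int.fract_nonneg y
  have hy1 := Int.fract_lt_one y
  have hyf : y = ⌊y⌋ + Int.fract y := (Int.floor_add_fract y).symm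
  have htend : Tendsto (fun s : ℝ => s * w) (𝓝[>] 0) (𝓝 0) := by
    have : Tendsto (fun s : ℝ => s * w) (𝓝 0) (𝓝 (0 * w)) :=
      tendsto_id.mul_const w
    rw [zero_mul] at this
    exact this.mono_left nhdsWithin_le_nhds
  have hsmall : ∀ ε > (0 : ℝ), ∀ᶠ s in 𝓝[>] (0 : ℝ), |s * w| < ε := by
    intro ε hε
    have := htend (Metric.ball_mem_nhds 0 hε)
    filter_upwards [this] with s hs
    simpa [Real.norm_eq_abs] using hs
  have hpos : ∀ᶠ s in 𝓝[>] (0 : ℝ), 0 < s := self_mem_nhdsWithin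
  by_cases hz : ∃ z : ℤ, y = z
  · obtain ⟨z, rfl⟩ := hz
    simp only [Int.fract_intCast, zero_add]
    by_cases hw : w < 0
    · filter_upwards [hsmall 1 one_pos, hpos] with s hs hs0
      rw [if_pos ⟨⟨z, rfl⟩, hw⟩]
      have hneg : s * w < 0 := mul_neg_of_pos_of_neg hs0 hw
      rw [abs_lt] at hs
      rw [Int.fract_intCast_add, Int.fract_eq_iff]
      exact ⟨by linarith, by linarith, -1, by push_cast; ring⟩
    · filter_upwards [hsmall 1 one_pos, hpos] with s hs hs0
      rw [if_neg (fun hh => hw hh.2)]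
      push Not at hw
      have hnn : 0 ≤ s * w := mul_nonneg hs0.le hw
      rw [abs_lt] at hs
      rw [Int.fract_intCast_add, Int.fract_eq_iff]
      exact ⟨by linarith, by linarith, 0, by push_cast; ring⟩
  · have hf0 : 0 < Int.fract y := by
      rcases lt_or_eq_of_le hy0 with h | h
      · exact h
      · exfalso
        apply hz
        exact ⟨⌊y⌋, by linarith⟩
    have he : 0 < min (Int.fract y) (1 - Int.fract y) := lt_min hf0 (by linarith)
    filter_upwards [hsmall _ he] with s hs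
    rw [if_neg (fun hh => hz hh.1), add_zero]
    rw [lt_min_iff, abs_lt, abs_lt] at hs
    rw [Int.fract_eq_iff]
    refine ⟨by linarith [hs.1.1], by linarith [hs.2.2], ⌊y⌋, by linarith⟩

namespace Hyp

/-- at every time the number of positive crossings equals the number of negative ones -/
lemma card_cross (h : Hyp r θ v c) (j : ℤ) (t : ℝ) :
    (Finset.univ.filter fun i => Cross r θ v j t i ∧ 0 < v i).card =
    (Finset.univ.filter fun i => Cross r θ v j t i ∧ v i < 0).card := by
  classical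
  set S0 : ℝ := ∑ i, Int.fract (X r θ v j t i) with hS0
  set V : ℝ := ∑ i, (v i : ℝ) with hV
  -- right
  have hright : ∀ᶠ s in 𝓝[>] (0 : ℝ), ∑ i, Int.fract (X r θ v j (t + s) i) =
      S0 + s * V + ((Finset.univ.filter fun i => Cross r θ v j t i ∧ v i < 0).card : ℝ) := by
    have hall : ∀ᶠ s in 𝓝[>] (0 : ℝ), ∀ i : Fin n, Int.fract (X r θ v j t i + s * v i) =
        Int.fract (X r θ v j t i) + s * v i +
        (if (∃ z : ℤ, X r θ v j t i = z) ∧ (v i : ℝ) < 0 then 1 else 0) := by
      rw [Filter.eventually_all]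
      exact fun i => fract_right _ _
    filter_upwards [hall] with s hs
    simp only [X_add]
    rw [Finset.sum_congr rfl fun i _ => hs i, Finset.sum_add_distrib, Finset.sum_add_distrib,
      ← Finset.mul_sum, Finset.sum_boole]
    congr 2
    congr 1
    ext i
    rw [Finset.mem_filter, Finset.mem_filter, Int.cast_lt_zero]
    rfl
  have hleft : ∀ᶠ s in 𝓝[>] (0 : ℝ), ∑ i, Int.fract (X r θ v j (t - s) i) =
      S0 - s * V + ((Finset.univ.filter fun i => Cross r θ v j t i ∧ 0 < v i).card : ℝ) := by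
    have hall : ∀ᶠ s in 𝓝[>] (0 : ℝ), ∀ i : Fin n, Int.fract (X r θ v j t i + s * (-v i)) =
        Int.fract (X r θ v j t i) + s * (-v i) +
        (if (∃ z : ℤ, X r θ v j t i = z) ∧ (-v i : ℝ) < 0 then 1 else 0) := by
      rw [Filter.eventually_all]
      exact fun i => fract_right _ _
    filter_upwards [hall] with s hs
    have e : ∀ i, X r θ v j (t - s) i = X r θ v j t i + s * (-v i) := by
      intro i
      rw [sub_eq_add_neg, X_add]; ring
    simp only [e]
    rw [Finset.sum_congr rfl fun i _ => hs i, Finset.sum_add_distrib, Finset.sum_add_distrib,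
      Finset.sum_boole]
    have e2 : ∑ i, s * (-(v i : ℝ)) = - (s * V) := by
      rw [hV, Finset.mul_sum, ← Finset.sum_neg_distrib]
      exact Finset.sum_congr rfl fun i _ => by ring
    rw [e2, ← sub_eq_add_neg]
    congr 2
    congr 1
    ext i
    rw [Finset.mem_filter, Finset.mem_filter, neg_lt_zero, Int.cast_pos]
    rfl
  -- extract explicit neighbourhoods
  rw [eventually_nhdsWithin_iff, Metric.eventually_nhds_iff] at hright hleft
  obtain ⟨ε1, hε1, hr⟩ := hright
  obtain ⟨ε2, hε2, hl⟩ := hleft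
  -- first right point
  obtain ⟨t1, ht1a, ht1b, ht1⟩ := h.exists_gen (a := t) (b := t + ε1) (by linarith)
  have r1 := hr (y := t1 - t) (by rw [Real.dist_eq, sub_zero, abs_of_pos (by linarith)]; linarith)
    (by simpa using ht1a)
  -- second right point
  obtain ⟨t2, ht2a, ht2b, ht2⟩ := h.exists_gen (a := t) (b := t1) ht1a
  have r2 := hr (y := t2 - t) (by rw [Real.dist_eq, sub_zero, abs_of_pos (by linarith)]; linarith)
    (by simpa using ht2a)
  obtain ⟨t3, ht3a, ht3b, ht3⟩ := h.exists_gen (a := t - ε2) (b := t) (by linarith)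
  have l1 := hl (y := t - t3) (by rw [Real.dist_eq, sub_zero, abs_of_pos (by linarith)]; linarith)
    (by simpa using ht3b)
  have e1 : t + (t1 - t) = t1 := by ring
  have e2 : t + (t2 - t) = t2 := by ring
  have e3 : t - (t - t3) = t3 := by ring
  rw [e1, h.sum_eq ht1 j] at r1
  rw [e2, h.sum_eq ht2 j] at r2
  rw [e3, h.sum_eq ht3 j] at l1
  have hV0 : V = 0 := by
    have : (t1 - t2) * V = 0 := by linarith
    rcases mul_eq_zero.1 this with h5 | h5
    · linarith
    · exact h5
  rw [hV0] at r1 l1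
  have : ((Finset.univ.filter fun i => Cross r θ v j t i ∧ 0 < v i).card : ℝ) =
    ((Finset.univ.filter fun i => Cross r θ v j t i ∧ v i < 0).card : ℝ) := by linarith
  exact_mod_cast this

/-- two positive letters never cross at the same time -/
lemma cross_inj_pos (h : Hyp r θ v c) {j : ℤ} {t : ℝ} {i k : Fin n} (hi : 0 < v i) (hk : 0 < v k)
    (ci : Cross r θ v j t i) (ck : Cross r θ v j t k) : i = k := by
  have hir : (0 : ℝ) < v i := by exact_mod_cast hi
  have hkr : (0 : ℝ) < v k := by exact_mod_cast hk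
  have h1 : 0 < r i / v i := div_pos (h.pos i) hir
  have h2 : 0 < r k / v k := div_pos (h.pos k) hkr
  obtain ⟨s, hs1, hs2, hs⟩ := h.exists_gen (a := max (t - r i / v i) (t - r k / v k)) (b := t)
    (max_lt (by linarith) (by linarith))
  rw [max_lt_iff] at hs1
  exact (h.uniq hs j).unique (h.active_before hi ci hs1.1 hs2) (h.active_before hk ck hs1.2 hs2)

lemma cross_inj_neg (h : Hyp r θ v c) {j : ℤ} {t : ℝ} {i k : Fin n} (hi : v i < 0) (hk : v k < 0)
    (ci : Cross r θ v j t i) (ck : Cross r θ v j t k) : i = k := by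
  refine h.neg.cross_inj_pos (j := j) (t := -t) (by simpa using hi) (by simpa using hk) ?_ ?_
  · rw [cross_neg, neg_neg]; exact ci
  · rw [cross_neg, neg_neg]; exact ck

/-- no letter has speed zero -/
lemma speed_ne (h : Hyp r θ v c) (i : Fin n) : v i ≠ 0 := by
  intro hv
  -- a moving letter
  obtain ⟨k, hk⟩ : ∃ k, v k ≠ 0 := by
    by_contra hcon
    push Not at hcon
    exact h.ne (funext hcon)
  have hik : i ≠ k := by rintro rfl; exact hk hv
  -- a fibre in which `i` is active
  obtain ⟨j, hj⟩ : ∃ j : ℤ, 1 - r i ≤ Int.fract (θ i + j * r i) := by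
    by_contra hcon
    push Not at hcon
    have hfl : ∀ j : ℕ, ⌊θ i + (j : ℤ) * r i⌋ = ⌊θ i⌋ := by
      intro j
      induction j with
      | zero => simp
      | succ j ih =>
        rw [← ih]
        have h5 := hcon j
        have hp := h.pos i
        set y := θ i + ((j : ℤ) : ℝ) * r i with hy
        have e : θ i + (((j + 1 : ℕ) : ℤ) : ℝ) * r i = y + r i := by rw [hy]; push_cast; ring
        rw [e, Int.floor_eq_iff]
        have := Int.floor_add_fract y
        have := Int.fract_nonneg y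
        constructor <;> linarith
    obtain ⟨M, hM⟩ := exists_nat_gt ((⌊θ i⌋ + 1 - θ i) / r i)
    have h6 := hfl M
    rw [Int.floor_eq_iff] at h6
    rw [div_lt_iff₀ (h.pos i)] at hM
    push_cast at h6
    linarith [h6.2]
  have hact : ∀ s, 1 - r i ≤ Int.fract (X r θ v j s i) := by
    intro s
    unfold X
    rw [hv]
    simpa using hj
  obtain ⟨t, -, ht⟩ := exists_cross_gt (r := r) (θ := θ) (j := j) hk 0
  rcases lt_or_gt_of_ne hk with hneg | hpos
  · have hnr : (0 : ℝ) < (-v k : ℤ) := by exact_mod_cast (by omega : 0 < -v k)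
    have h1 : 0 < r k / (-v k : ℤ) := div_pos (h.pos k) hnr
    obtain ⟨s, hs1, hs2, hs⟩ := h.exists_gen (a := t) (b := t + r k / (-v k : ℤ)) (by linarith)
    exact hik ((h.uniq hs j).unique (hact s) (h.active_after hneg ht hs1 hs2))
  · have hpr : (0 : ℝ) < v k := by exact_mod_cast hpos
    have h1 : 0 < r k / v k := div_pos (h.pos k) hpr
    obtain ⟨s, hs1, hs2, hs⟩ := h.exists_gen (a := t - r k / v k) (b := t) (by linarith)
    exact hik ((h.uniq hs j).unique (hact s) (h.active_before hpos ht hs1 hs2))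

/-- every time in a fibre with a positive crossing has a negative crossing and conversely -/
lemma cross_neg_of_pos (h : Hyp r θ v c) {j : ℤ} {t : ℝ} {i : Fin n} (hi : 0 < v i)
    (ci : Cross r θ v j t i) : ∃ k, v k < 0 ∧ Cross r θ v j t k := by
  classical
  have hcard := h.card_cross j t
  have : 0 < (Finset.univ.filter fun i => Cross r θ v j t i ∧ 0 < v i).card :=
    Finset.card_pos.2 ⟨i, Finset.mem_filter.2 ⟨Finset.mem_univ _, ci, hi⟩⟩
  rw [hcard] at this
  obtain ⟨k, hk⟩ := Finset.card_pos.1 this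
  have := (Finset.mem_filter.1 hk).2
  exact ⟨k, this.2, this.1⟩

lemma cross_pos_of_neg (h : Hyp r θ v c) {j : ℤ} {t : ℝ} {i : Fin n} (hi : v i < 0)
    (ci : Cross r θ v j t i) : ∃ k, 0 < v k ∧ Cross r θ v j t k := by
  classical
  have hcard := h.card_cross j t
  have : 0 < (Finset.univ.filter fun i => Cross r θ v j t i ∧ v i < 0).card :=
    Finset.card_pos.2 ⟨i, Finset.mem_filter.2 ⟨Finset.mem_univ _, ci, hi⟩⟩
  rw [← hcard] at this
  obtain ⟨k, hk⟩ := Finset.card_pos.1 this
  have := (Finset.mem_filter.1 hk).2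
  exact ⟨k, this.2, this.1⟩

/-- disjointness of the arcs of two positive letters -/
lemma arcs_pos (h : Hyp r θ v c) {j : ℤ} {t t' : ℝ} {i k : Fin n} (hik : i ≠ k) (hi : 0 < v i)
    (hk : 0 < v k) (ci : Cross r θ v j t i) (ck : Cross r θ v j t' k) (htt : t < t') :
    t ≤ t' - r k / v k := by
  by_contra hcon
  push Not at hcon
  have hir : (0 : ℝ) < v i := by exact_mod_cast hi
  have h1 : 0 < r i / v i := div_pos (h.pos i) hir
  obtain ⟨s, hs1, hs2, hs⟩ := h.exists_gen (a := max (t - r i / v i) (t' - r k / v k)) (b := t)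
    (max_lt (by linarith) (by linarith))
  rw [max_lt_iff] at hs1
  exact hik ((h.uniq hs j).unique (h.active_before hi ci hs1.1 hs2)
    (h.active_before hk ck hs1.2 (by linarith)))

lemma cross_shift {j : ℤ} {t : ℝ} {i : Fin n} (hi : v i ≠ 0) (ci : Cross r θ v j t i) :
    Cross r θ v (j + 1) (t - r i / v i) i := by
  obtain ⟨z, hz⟩ := ci
  have hir : (v i : ℝ) ≠ 0 := by exact_mod_cast hi
  refine ⟨z, ?_⟩
  rw [X_succ, sub_eq_add_neg, X_add, hz]
  field_simp
  ring

/-- one half of the equality of the quotients -/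
lemma quot_le (h : Hyp r θ v c) {i k : Fin n} (hik : i ≠ k) (hi : 0 < v i) (hk : 0 < v k) :
    r k / v k ≤ r i / v i := by
  obtain ⟨t, -, ht⟩ := exists_cross_gt (r := r) (θ := θ) (j := 0) (i := i) hi.ne' 0
  obtain ⟨t', htt, ht'⟩ := exists_cross_gt (r := r) (θ := θ) (j := 0) (i := k) hk.ne' t
  have key : ∀ m : ℕ, Cross r θ v m (t - m * (r i / v i)) i ∧
      Cross r θ v m (t' - m * (r k / v k)) k ∧ t - m * (r i / v i) < t' - m * (r k / v k) := by
    intro m
    induction m with
    | zero => simpa using ⟨ht, ht', htt⟩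
    | succ m ih =>
      obtain ⟨c1, c2, hlt⟩ := ih
      have hir : (0 : ℝ) < v i := by exact_mod_cast hi
      have h1 : 0 < r i / v i := div_pos (h.pos i) hir
      have c1' := cross_shift hi.ne' c1
      have c2' := cross_shift hk.ne' c2
      have e1 : t - ((m + 1 : ℕ) : ℝ) * (r i / v i) = t - m * (r i / v i) - r i / v i := by
        push_cast; ring
      have e2 : t' - ((m + 1 : ℕ) : ℝ) * (r k / v k) = t' - m * (r k / v k) - r k / v k := by
        push_cast; ring
      have harc := h.arcs_pos hik hi hk c1 c2 hlt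
      rw [e1, e2]
      refine ⟨by simpa using c1', by simpa using c2', by linarith⟩
  by_contra hcon
  push Not at hcon
  obtain ⟨M, hM⟩ := exists_nat_gt ((t' - t) / (r k / v k - r i / v i))
  have hd : 0 < r k / v k - r i / v i := by linarith
  rw [div_lt_iff₀ hd] at hM
  have := (key M).2.2
  nlinarith

lemma quot_eq (h : Hyp r θ v c) {i k : Fin n} (hi : 0 < v i) (hk : 0 < v k) :
    r i / v i = r k / v k := by
  by_cases hik : i = k
  · rw [hik]
  · exact le_antisymm (h.quot_le (Ne.symm hik) hk hi) (h.quot_le hik hi hk)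

lemma quot_eq_neg (h : Hyp r θ v c) {i k : Fin n} (hi : v i < 0) (hk : v k < 0) :
    r i / (-v i : ℤ) = r k / (-v k : ℤ) := by
  have := h.neg.quot_eq (i := i) (k := k) (by simpa using hi) (by simpa using hk)
  simpa only [Pi.neg_apply] using this

lemma cross_add_int {j : ℤ} {t : ℝ} {i : Fin n} (M : ℤ) (ci : Cross r θ v j t i) :
    Cross r θ v j (t + M) i := by
  obtain ⟨z, hz⟩ := ci
  refine ⟨z + M * v i, ?_⟩
  rw [X_add, hz]
  push_cast
  ring

/-- **P2**: the structure theorem. -/
theorem twoLetter (h : Hyp r θ v c) : TwoLetter r := by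
  -- letters of both signs
  have hB0 : ∃ (t : ℝ) (i k : Fin n), 0 < v i ∧ v k < 0 ∧ Cross r θ v 0 t i ∧ Cross r θ v 0 t k := by
    obtain ⟨i, hi⟩ : ∃ i, v i ≠ 0 := by
      by_contra hcon
      push Not at hcon
      exact h.ne (funext hcon)
    obtain ⟨t, -, ht⟩ := exists_cross_gt (r := r) (θ := θ) (j := 0) hi 0
    rcases lt_or_gt_of_ne hi with hneg | hpos
    · obtain ⟨k, hk, ck⟩ := h.cross_pos_of_neg hneg ht
      exact ⟨t, k, i, hk, hneg, ck, ht⟩
    · obtain ⟨k, hk, ck⟩ := h.cross_neg_of_pos hpos ht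
      exact ⟨t, i, k, hpos, hk, ht, ck⟩
  obtain ⟨τ, p, q, hp, hq, cp, cq⟩ := hB0
  set α : ℝ := r p / v p with hα
  set β : ℝ := r q / (-v q : ℤ) with hβ
  have hpr : (0 : ℝ) < v p := by exact_mod_cast hp
  have hqr : (0 : ℝ) < (-v q : ℤ) := by exact_mod_cast (by omega : 0 < -v q)
  have hα0 : 0 < α := div_pos (h.pos p) hpr
  have hβ0 : 0 < β := div_pos (h.pos q) hqr
  have hαi : ∀ i, 0 < v i → r i / v i = α := fun i hi => h.quot_eq hi hp
  have hβi : ∀ i, v i < 0 → r i / (-v i : ℤ) = β := fun i hi => h.quot_eq_neg hi hq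
  set γ : ℝ := α + β with hγ
  have hγ0 : 0 < γ := by positivity
  let B : ℝ → Prop := fun t => ∃ i, 0 < v i ∧ Cross r θ v 0 t i
  have Bneg : ∀ t, B t → ∃ i, v i < 0 ∧ Cross r θ v 0 t i := by
    rintro t ⟨i, hi, ci⟩
    exact h.cross_neg_of_pos hi ci
  have Bof : ∀ t i, v i ≠ 0 → Cross r θ v 0 t i → B t := by
    intro t i hi ci
    rcases lt_or_gt_of_ne hi with hneg | hpos
    · exact h.cross_pos_of_neg hneg ci
    · exact ⟨i, hpos, ci⟩
  have hBτ : B τ := ⟨p, hp, cp⟩
  -- gaps
  have gap : ∀ t t', B t → B t' → t < t' → t + γ ≤ t' := by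
    intro t t' ht ht' htt
    by_contra hcon
    push Not at hcon
    obtain ⟨k, hk, ck⟩ := Bneg t ht
    obtain ⟨i, hi, ci⟩ := ht'
    obtain ⟨s, hs1, hs2, hs⟩ := h.exists_gen (a := max t (t' - α)) (b := min (t + β) t')
      (max_lt (lt_min (by linarith) htt) (lt_min (by linarith) (by linarith)))
    rw [max_lt_iff] at hs1
    rw [lt_min_iff] at hs2
    have e := (h.uniq hs 0).unique
      (h.active_before hi ci (by rw [hαi i hi]; exact hs1.2) hs2.2)
      (h.active_after hk ck hs1.1 (by rw [hβi k hk]; exact hs2.1))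
    subst e
    omega
  -- next crossing
  have near : ∀ s, B s → ∀ ε, 0 < ε → ε ≤ α → ∃ t, B t ∧ s + γ ≤ t ∧ t < s + γ + ε := by
    intro s hs ε hε hεα
    obtain ⟨t, ht1, ht2, ht⟩ := h.exists_gen (a := s + β) (b := s + β + ε) (by linarith)
    obtain ⟨k, hk, -⟩ := h.uniq ht 0
    rcases lt_or_gt_of_ne (h.speed_ne k) with hneg | hpos
    · exfalso
      obtain ⟨t', h1, h2, h3⟩ := cross_of_active_neg hneg hk
      rw [hβi k hneg] at h2
      have hB' := Bof t' k hneg.ne h3
      have := gap s t' hs hB' (by linarith)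
      linarith
    · obtain ⟨t', h1, h2, h3⟩ := cross_of_active_pos hpos hk
      rw [hαi k hpos] at h2
      have hB' := Bof t' k hpos.ne' h3
      exact ⟨t', hB', gap s t' hs hB' (by linarith), by linarith⟩
  have next : ∀ s, B s → B (s + γ) := by
    intro s hs
    obtain ⟨t1, h1, h2, h3⟩ := near s hs α hα0 le_rfl
    rcases eq_or_lt_of_le h2 with h4 | h4
    · rw [h4]; exact h1
    · exfalso
      obtain ⟨t2, g1, g2, g3⟩ := near s hs (t1 - (s + γ)) (by linarith) (by linarith)
      have := gap t2 t1 g1 h1 (by linarith)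
      linarith
  have nextn : ∀ s, B s → ∀ k : ℕ, B (s + k * γ) := by
    intro s hs k
    induction k with
    | zero => simpa using hs
    | succ k ih =>
      have := next _ ih
      have e : s + ((k + 1 : ℕ) : ℝ) * γ = s + k * γ + γ := by push_cast; ring
      rw [e]; exact this
  have per : ∀ s, B s → ∀ M : ℤ, B (s + M) := by
    rintro s ⟨i, hi, ci⟩ M
    exact ⟨i, hi, cross_add_int M ci⟩
  -- forward description
  have forward : ∀ s t, B s → B t → s ≤ t → ∃ k : ℕ, t = s + k * γ := by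
    intro s t hs ht hst
    refine ⟨⌊(t - s) / γ⌋₊, ?_⟩
    have hk := nextn s hs ⌊(t - s) / γ⌋₊
    have h1 : (⌊(t - s) / γ⌋₊ : ℝ) ≤ (t - s) / γ :=
      Nat.floor_le (div_nonneg (by linarith) hγ0.le)
    have h2 : (t - s) / γ < ⌊(t - s) / γ⌋₊ + 1 := Nat.lt_floor_add_one _
    rw [le_div_iff₀ hγ0] at h1
    rw [div_lt_iff₀ hγ0] at h2
    by_contra hne
    have hlt : s + ⌊(t - s) / γ⌋₊ * γ < t := lt_of_le_of_ne (by linarith) (Ne.symm hne)
    have := gap _ _ hk ht hlt
    linarith
  obtain ⟨V, hV⟩ := forward τ (τ + (1 : ℤ)) hBτ (per τ hBτ 1) (by push_cast; linarith)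
  have hV1 : (V : ℝ) * γ = 1 := by push_cast at hV; linarith
  have descr : ∀ t, B t → ∃ k : ℤ, t = τ + k * γ := by
    intro t ht
    obtain ⟨M, hM⟩ := exists_nat_gt (τ - t)
    have hB' := per τ hBτ (-(M : ℤ))
    obtain ⟨k, hk⟩ := forward _ t hB' ht (by push_cast; linarith)
    refine ⟨(k : ℤ) - M * V, ?_⟩
    rw [hk]
    push_cast
    have : (M : ℝ) * V * γ = M := by rw [mul_assoc, hV1, mul_one]
    linarith
  have allB : ∀ k : ℤ, B (τ + k * γ) := by
    intro k
    have hV0 : 0 < V := by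
      rcases Nat.eq_zero_or_pos V with h0 | h0
      · rw [h0] at hV1; simp at hV1
      · exact h0
    -- k = k' - M V with M = |k|
    have hk' : 0 ≤ k + k.natAbs * V := by
      have h1 : (1 : ℤ) ≤ V := by exact_mod_cast hV0
      have h2 : -(k.natAbs : ℤ) ≤ k := by omega
      nlinarith [Int.natCast_nonneg k.natAbs]
    obtain ⟨k', hk'2⟩ := Int.eq_ofNat_of_zero_le hk'
    have hB1 := nextn τ hBτ k'
    have hB2 := per _ hB1 (-(k.natAbs : ℤ))
    have e : τ + (k : ℝ) * γ = τ + k' * γ + (-(k.natAbs : ℤ) : ℤ) := by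
      have h3 : (k' : ℝ) = k + (k.natAbs : ℤ) * V := by
        have : ((k' : ℤ) : ℝ) = ((k + k.natAbs * V : ℤ) : ℝ) := by rw [hk'2]
        push_cast at this
        push_cast
        linarith
      rw [h3]
      push_cast
      have : (((k.natAbs : ℤ) : ℝ)) * V * γ = ((k.natAbs : ℤ) : ℝ) := by
        rw [mul_assoc, hV1, mul_one]
      push_cast at this
      linarith
    rw [e]
    exact hB2
  -- data of the letters
  have hdata : ∀ i, ∃ a b : ℤ, Cross r θ v 0 (τ + a * γ) i ∧ γ * v i * (b - a : ℤ) = 1 := by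
    intro i
    have hvi := h.speed_ne i
    have hvr : (v i : ℝ) ≠ 0 := by exact_mod_cast hvi
    obtain ⟨t, -, ht⟩ := exists_cross_gt (r := r) (θ := θ) (j := 0) hvi 0
    obtain ⟨a, ha⟩ := descr t (Bof t i hvi ht)
    have ht2 : Cross r θ v 0 (t + 1 / v i) i := by
      obtain ⟨z, hz⟩ := ht
      refine ⟨z + 1, ?_⟩
      rw [X_add, hz]
      push_cast
      field_simp
    obtain ⟨b, hb⟩ := descr _ (Bof _ i hvi ht2)
    refine ⟨a, b, by rw [← ha]; exact ht, ?_⟩
    have h1 : 1 / (v i : ℝ) = (b - a) * γ := by rw [ha] at hb; linarith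
    push_cast
    calc γ * (v i : ℝ) * ((b : ℝ) - a) = ((b - a) * γ) * v i := by ring
      _ = 1 := by rw [← h1]; field_simp
  choose a b hcr hab using hdata
  have hT : ∀ i, 0 < (b i - a i).natAbs := by
    intro i
    rw [Int.natAbs_pos]
    intro h0
    have := hab i
    rw [h0] at this
    simp at this
  have hdiv : ∀ i (k : ℤ), Cross r θ v 0 (τ + k * γ) i ↔ ((b i - a i).natAbs : ℤ) ∣ k - a i := by
    intro i k
    obtain ⟨z, hz⟩ := hcr i
    have hne : ((b i - a i : ℤ) : ℝ) ≠ 0 := by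
      have := hT i
      rw [Int.natAbs_pos] at this
      exact_mod_cast this
    have e1 : X r θ v 0 (τ + k * γ) i * (b i - a i : ℤ) = z * (b i - a i : ℤ) + (k - a i : ℤ) := by
      have e2 : τ + (k : ℝ) * γ = (τ + a i * γ) + (k - a i) * γ := by ring
      rw [e2, X_add, hz]
      have := hab i
      push_cast at this ⊢
      linear_combination ((k : ℝ) - a i) * this
    rw [Int.natAbs_dvd]
    constructor
    · rintro ⟨y, hy⟩
      rw [hy] at e1
      refine ⟨y - z, ?_⟩
      have : ((k - a i : ℤ) : ℝ) = (((b i - a i) * (y - z) : ℤ) : ℝ) := by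
        push_cast at e1 ⊢
        linarith
      exact_mod_cast this
    · rintro ⟨y, hy⟩
      refine ⟨z + y, ?_⟩
      apply mul_right_cancel₀ hne
      rw [e1, hy]
      push_cast
      ring
  refine ⟨α / γ, fun i => decide (0 < v i), fun i => (b i - a i).natAbs, a,
    div_pos hα0 hγ0, ?_, hT, ?_, ?_⟩
  · rw [div_lt_one hγ0]; linarith
  · intro i
    have h1 := hab i
    have hne : ((b i - a i : ℤ) : ℝ) ≠ 0 := by
      have := hT i
      rw [Int.natAbs_pos] at this
      exact_mod_cast this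
    by_cases hvi : 0 < v i
    · have hvr : (0 : ℝ) < v i := by exact_mod_cast hvi
      simp only [hvi, decide_true, if_true]
      have hpos : 0 < (b i - a i : ℤ) := by
        have : (0 : ℝ) < ((b i - a i : ℤ) : ℝ) := by
          by_contra hcon
          push Not at hcon
          have : γ * v i * ((b i - a i : ℤ) : ℝ) ≤ 0 :=
            mul_nonpos_of_nonneg_of_nonpos (by positivity) hcon
          linarith
        exact_mod_cast this
      have hcast : (((b i - a i).natAbs : ℕ) : ℝ) = ((b i - a i : ℤ) : ℝ) := by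
        rw [Nat.cast_natAbs, abs_of_pos hpos]
      rw [hcast]
      have h2 := hαi i hvi
      rw [div_eq_iff hvr.ne'] at h2
      rw [h2, div_div, eq_div_iff (by positivity)]
      calc α * (v i : ℝ) * (γ * ((b i - a i : ℤ) : ℝ)) = α * (γ * v i * ((b i - a i : ℤ) : ℝ)) := by ring
        _ = α := by rw [h1, mul_one]
    · have hvi' : v i < 0 := lt_of_le_of_ne (not_lt.1 hvi) (h.speed_ne i)
      have hvr : (v i : ℝ) < 0 := by exact_mod_cast hvi'
      simp only [hvi, decide_false]
      have hneg : (b i - a i : ℤ) < 0 := by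
        have : ((b i - a i : ℤ) : ℝ) < 0 := by
          by_contra hcon
          push Not at hcon
          have : γ * v i * ((b i - a i : ℤ) : ℝ) ≤ 0 :=
            mul_nonpos_of_nonpos_of_nonneg (by nlinarith) hcon
          linarith
        exact_mod_cast this
      have hcast : (((b i - a i).natAbs : ℕ) : ℝ) = -((b i - a i : ℤ) : ℝ) := by
        rw [Nat.cast_natAbs, abs_of_neg hneg, Int.cast_neg]
      rw [hcast]
      have h2 := hβi i hvi'
      have hvr2 : ((-v i : ℤ) : ℝ) ≠ 0 := by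
        have : (-v i : ℤ) ≠ 0 := by omega
        exact_mod_cast this
      rw [div_eq_iff hvr2] at h2
      have e3 : 1 - α / γ = β / γ := by
        field_simp
        rw [hγ]; ring
      rw [h2, e3]
      simp only [Bool.false_eq_true, if_false]
      rw [div_div, eq_div_iff (by
        have : -((b i - a i : ℤ) : ℝ) ≠ 0 := neg_ne_zero.2 hne
        exact mul_ne_zero hγ0.ne' this)]
      push_cast
      push_cast at h1
      calc β * -(v i : ℝ) * (γ * -((b i : ℝ) - a i)) = β * (γ * v i * ((b i : ℝ) - a i)) := by ring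
        _ = β := by rw [h1, mul_one]
  · intro bb m
    cases bb with
    | true =>
      obtain ⟨i, hi, ci⟩ := allB m
      refine ⟨i, ⟨by simp [hi], (hdiv i m).1 ci⟩, ?_⟩
      rintro k ⟨hk1, hk2⟩
      have hk : 0 < v k := by simpa using hk1
      exact h.cross_inj_pos hk hi ((hdiv k m).2 hk2) ci
    | false =>
      obtain ⟨i, hi, ci⟩ := Bneg _ (allB m)
      refine ⟨i, ⟨by simp [hi.le], (hdiv i m).1 ci⟩, ?_⟩
      rintro k ⟨hk1, hk2⟩
      have hk : ¬ 0 < v k := by simpa using hk1
      have hk' : v k < 0 := lt_of_le_of_ne (not_lt.1 hk) (h.speed_ne k)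
      exact h.cross_inj_neg hk' hi ((hdiv k m).2 hk2) ci

end Hyp

/-- **P2** in the form of the stub. -/
theorem P2 {n : ℕ} {r θ : Fin n → ℝ} {v : Fin n → ℤ} {c : ℝ} (h0 : ∀ i, 0 < r i ∧ r i < 1)
    (hs : ∑ i, r i = 1) (hv : v ≠ 0)
    (hH : ∀ i, v i = 0 → ∀ j z : ℤ, θ i + j * r i ≠ z)
    (hstar : ∀ (j : ℤ) (t : ℝ), (∀ i, ∀ z : ℤ, θ i + j * r i + t * v i ≠ z) →
      ∑ i, Int.fract (θ i + j * r i + t * v i) = c) : TwoLetter r :=
  Hyp.twoLetter (r := r) (θ := θ) (v := v) (c := c)
    ⟨fun i => (h0 i).1, fun i => (h0 i).2, hs, hv, hH, hstar⟩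

end Pool.Agent.Helper27.FKF
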