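import Pool.Agent.Helper27.FKF.P2
import Pool.Agent.Helper27.FKF.Defs
import Pool.Agent.Helper27.FKF.P3L

/-!
# Theorem F: assembly
-/

open Finset Filter Topology

namespace Pool.Agent.Helper27.FKF

open Pool.Agent.Helper7.FR Pool.Agent.Helper27.FK

/-- the lattice of relations that hold eventually -/
def relLattice {n : ℕ} {ι : Type*} (U : Ultrafilter ι) (r : ι → Fin n → ℝ) :
    AddSubgroup (Fin n → ℤ) where
  carrier := {k | ∀ᶠ m in U, ∃ z : ℤ, ∑ i, (k i : ℝ) * r m i = z}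
  zero_mem' := by
    show ∀ᶠ m in (U : Filter ι), _
    exact Filter.Eventually.of_forall fun m => ⟨0, by simp⟩
  add_mem' := by
    intro k l hk hl
    have hk' : ∀ᶠ m in (U : Filter ι), ∃ z : ℤ, ∑ i, (k i : ℝ) * r m i = z := hk
    have hl' : ∀ᶠ m in (U : Filter ι), ∃ z : ℤ, ∑ i, (l i : ℝ) * r m i = z := hl
    show ∀ᶠ m in (U : Filter ι), _
    filter_upwards [hk', hl'] with m h1 h2
    obtain ⟨z1, hz1⟩ := h1
    obtain ⟨z2, hz2⟩ := h2
    refine ⟨z1 + z2, ?_⟩
    push_cast [Pi.add_apply]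
    rw [← hz1, ← hz2, ← Finset.sum_add_distrib]
    exact Finset.sum_congr rfl fun i _ => by ring
  neg_mem' := by
    intro k hk
    have hk' : ∀ᶠ m in (U : Filter ι), ∃ z : ℤ, ∑ i, (k i : ℝ) * r m i = z := hk
    show ∀ᶠ m in (U : Filter ι), _
    filter_upwards [hk'] with m h1
    obtain ⟨z1, hz1⟩ := h1
    refine ⟨-z1, ?_⟩
    push_cast [Pi.neg_apply]
    rw [← hz1, ← Finset.sum_neg_distrib]
    exact Finset.sum_congr rfl fun i _ => by ring

lemma mem_relLattice {n : ℕ} {ι : Type*} (U : Ultrafilter ι) (r : ι → Fin n → ℝ)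
    (k : Fin n → ℤ) : k ∈ relLattice U r ↔
      ∀ᶠ m in (U : Filter ι), ∃ z : ℤ, ∑ i, (k i : ℝ) * r m i = z := Iff.rfl

lemma single_rel {n : ℕ} {r : Fin n → ℝ} {i : Fin n} {Q : ℕ}
    (h : ∃ z : ℤ, ∑ l, (((Pi.single i (Q : ℤ) : Fin n → ℤ) l : ℤ) : ℝ) * r l = z) :
    ∃ z : ℤ, (Q : ℝ) * r i = z := by
  obtain ⟨z, hz⟩ := h
  refine ⟨z, ?_⟩
  rw [← hz, Finset.sum_eq_single i]
  · rw [Pi.single_eq_same]; push_cast; rfl
  · intro l _ hl
    rw [Pi.single_eq_of_ne hl]
    simp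
  · intro hi
    exact absurd (Finset.mem_univ _) hi

/-- an eventually integer valued convergent family is eventually equal to its limit -/
lemma eventually_eq_of_int {ι : Type*} {U : Ultrafilter ι} {f : ι → ℝ} {x : ℝ}
    (hf : Tendsto f U (𝓝 x)) (hz : ∀ᶠ m in (U : Filter ι), ∃ z : ℤ, f m = z) :
    ∀ᶠ m in (U : Filter ι), f m = x := by
  have h1 : ∀ᶠ m in (U : Filter ι), |f m - x| < 1 / 2 := by
    have := hf (Metric.ball_mem_nhds x (by norm_num : (0 : ℝ) < 1 / 2))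
    filter_upwards [this] with m hm
    simpa [Real.dist_eq] using hm
  -- the integer is eventually constant
  obtain ⟨m0, hm0, z0, hz0⟩ := (h1.and hz).exists
  have h2 : ∀ᶠ m in (U : Filter ι), f m = z0 := by
    filter_upwards [h1, hz] with m hm hzm
    obtain ⟨z, hz'⟩ := hzm
    rw [hz'] at hm ⊢
    rw [hz0] at hm0
    have : |((z - z0 : ℤ) : ℝ)| < 1 := by
      push_cast
      rw [abs_lt] at hm hm0 ⊢
      constructor <;> linarith [hm.1, hm.2, hm0.1, hm0.2]
    have h3 : |z - z0| < 1 := by exact_mod_cast this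
    have h4 : z - z0 = 0 := Int.abs_lt_one_iff.1 h3
    have h5 : z = z0 := by omega
    rw [h5]
  have h3 : Tendsto f U (𝓝 (z0 : ℝ)) :=
    (tendsto_const_nhds (x := (z0 : ℝ))).congr' (h2.mono fun m hm => hm.symm)
  have h4 := tendsto_nhds_unique hf h3
  rw [h4]
  exact h2

/-- the core dichotomy -/
theorem core {n : ℕ} {ι : Type*} (U : Ultrafilter ι) (r : ι → Fin n → ℝ)
    (h0 : ∀ m i, 0 < r m i ∧ r m i < 1) (hs : ∀ m, ∑ i, r m i = 1)
    (hadm : ∀ m, Admissible (r m)) :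
    (∃ Q : ℕ, 0 < Q ∧ ∀ᶠ m in (U : Filter ι), ∀ i, ∃ z : ℤ, (Q : ℝ) * r m i = z) ∨
    ∀ᶠ m in (U : Filter ι), TwoLetter (r m) := by
  classical
  choose θ0 hθ0 hcov using hadm
  have hP0 : ∀ m i, ∃ θ' : ℝ, (0 ≤ θ' ∧ θ' < 1) ∧ NormPhase (r m i) θ' ∧
      ∀ j : ℤ, ⌊(j : ℝ) * r m i + θ'⌋ = ⌊(j : ℝ) * r m i + θ0 m i⌋ := fun m i =>
    P0 (h0 m i).1 (h0 m i).2 (hθ0 m i)
  choose θ hθ hnorm hfl using hP0
  have hcov' : ∀ m, IsExactCover (r m) (θ m) := by
    intro m l
    obtain ⟨i, hi, huni⟩ := hcov m l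
    have key : ∀ i, l ∈ Sset (r m i) (θ m i) ↔ l ∈ Sset (r m i) (θ0 m i) := by
      intro i
      rw [mem_Sset (h0 m i).1, mem_Sset (h0 m i).1, hfl, hfl]
    exact ⟨i, (key i).2 hi, fun k hk => huni k ((key k).1 hk)⟩
  have hc : ∀ m, ∃ c : ℝ, ∀ j : ℤ, ∑ i, Int.fract ((j : ℝ) * r m i + θ m i) = c := fun m =>
    sum_fract_const (fun i => (h0 m i).1) (fun i => (h0 m i).2) (hs m) (hcov' m)
  choose c hc using hc
  obtain ⟨θ', c', hlim, hid⟩ := P3L U r θ c hθ hc
  obtain ⟨v, hv1, hv2⟩ := Pool.Agent.Helper67.FKF.P3V (relLattice U r)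
  have hE := Pool.Agent.Helper67.FKF.P3E U r
  by_cases hv : v = 0
  · left
    have hv2' : ∀ i, ∃ Q : ℕ, 0 < Q ∧ Pi.single i (Q : ℤ) ∈ relLattice U r := fun i =>
      hv2 i (by rw [hv]; rfl)
    choose Q hQ0 hQ using hv2'
    refine ⟨∏ i, Q i, Finset.prod_pos fun i _ => hQ0 i, ?_⟩
    have hall : ∀ᶠ m in (U : Filter ι), ∀ i, ∃ z : ℤ, (Q i : ℝ) * r m i = z := by
      rw [Filter.eventually_all]
      intro i
      have := (mem_relLattice U r _).1 (hQ i)
      exact this.mono fun m hm => single_rel hm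
    refine hall.mono fun m hm i => ?_
    obtain ⟨z, hz⟩ := hm i
    refine ⟨(∏ l ∈ Finset.univ.erase i, Q l : ℕ) * z, ?_⟩
    rw [← Finset.prod_erase_mul _ _ (Finset.mem_univ i)]
    push_cast
    rw [← hz]
    ring
  · right
    -- letters at rest
    have hrest : ∀ i, v i = 0 → ∀ᶠ m in (U : Filter ι), ∀ j z : ℤ, θ' i + j * r m i ≠ z := by
      intro i hi
      obtain ⟨Q, hQ0, hQ⟩ := hv2 i hi
      have hQr : (0 : ℝ) < Q := by exact_mod_cast hQ0
      have h1 : ∀ᶠ m in (U : Filter ι), ∃ z : ℤ, (Q : ℝ) * r m i = z :=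
        ((mem_relLattice U r _).1 hQ).mono fun m hm => single_rel hm
      -- rational with an odd phase
      have h2 : ∀ m, (∃ z : ℤ, (Q : ℝ) * r m i = z) → ∃ (s : ℚ) (y : ℤ), (s : ℝ) = r m i ∧
          (s.den : ℤ) ∣ Q ∧ 2 * (s.den : ℝ) * θ m i = 2 * y + 1 := by
        rintro m ⟨z, hz⟩
        set s : ℚ := (z : ℚ) / (Q : ℚ) with hsdef
        have hsr : (s : ℝ) = r m i := by
          rw [hsdef]; push_cast
          rw [div_eq_iff hQr.ne', ← hz]; ring
        obtain ⟨y, hy⟩ := hnorm m i s hsr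
        refine ⟨s, y, hsr, ?_, hy⟩
        have := Rat.den_dvd z (Q : ℤ)
        rw [Rat.divInt_eq_div, Int.cast_natCast] at this
        exact this
      have h3 : ∀ᶠ m in (U : Filter ι), ∃ z : ℤ, 2 * (Q : ℝ) * θ m i = z := by
        refine h1.mono fun m hm => ?_
        obtain ⟨s, y, hsr, ⟨w, hw⟩, hy⟩ := h2 m hm
        refine ⟨w * (2 * y + 1), ?_⟩
        have hw' : (Q : ℝ) = s.den * w := by exact_mod_cast hw
        rw [hw']
        push_cast
        rw [← hy]
        ring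
      have h4 : Tendsto (fun m => 2 * (Q : ℝ) * θ m i) U (𝓝 (2 * (Q : ℝ) * θ' i)) :=
        (hlim i).const_mul _
      have h5 := eventually_eq_of_int h4 h3
      filter_upwards [h1, h5] with m hm hm5 j z hz
      have hθ : θ m i = θ' i := mul_left_cancel₀ (by positivity : 2 * (Q : ℝ) ≠ 0) hm5
      rw [← hθ] at hz
      obtain ⟨s, y, hsr, -, hy⟩ := h2 m hm
      have hden : (s.den : ℝ) * r m i = s.num := by
        rw [← hsr]
        have := Rat.den_mul_eq_num s
        exact_mod_cast this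
      have e : (2 * y + 1 : ℝ) + 2 * j * s.num = 2 * s.den * z := by
        rw [← hy, ← hden, ← hz]; ring
      have e' : (2 * y + 1 : ℤ) + 2 * (j * s.num) = 2 * (s.den * z) := by
        have e2 : (2 * y + 1 : ℤ) + 2 * j * s.num = 2 * s.den * z := by exact_mod_cast e
        linarith
      generalize j * s.num = A at e'
      generalize (s.den : ℤ) * z = B' at e'
      omega
    have hrest' : ∀ᶠ m in (U : Filter ι), ∀ i, v i = 0 → ∀ j z : ℤ, θ' i + j * r m i ≠ z := by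
      rw [Filter.eventually_all]
      intro i
      by_cases hi : v i = 0
      · exact (hrest i hi).mono fun m hm _ => hm
      · exact Filter.Eventually.of_forall fun m h => absurd h hi
    filter_upwards [hE, hrest'] with m hmE hmr
    refine P2 (θ := θ') (v := v) (c := c') (h0 m) (hs m) hv hmr ?_
    intro j t ht
    have hk := hid (fun i => j * r m i + t * v i) ?_ ?_
    · rw [← hk]
      exact Finset.sum_congr rfl fun i _ => by rw [add_assoc]
    · intro k hk
      obtain ⟨z, hz⟩ := hmE k hk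
      have hkv := hv1 k ((mem_relLattice U r k).2 hk)
      have hkv' : ∑ i, (k i : ℝ) * (v i : ℝ) = 0 := by exact_mod_cast hkv
      refine ⟨j * z, ?_⟩
      have : ∑ i, (k i : ℝ) * (j * r m i + t * v i) =
          j * ∑ i, (k i : ℝ) * r m i + t * ∑ i, (k i : ℝ) * (v i : ℝ) := by
        rw [Finset.mul_sum, Finset.mul_sum, ← Finset.sum_add_distrib]
        exact Finset.sum_congr rfl fun i _ => by ring
      rw [this, hz, hkv']
      push_cast
      ring
    · intro i z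
      rw [← add_assoc]
      exact ht i z

/-- the exceptional tuples are rational -/
theorem exceptional_rational {n : ℕ} {r : Fin n → ℝ} (h0 : ∀ i, 0 < r i ∧ r i < 1)
    (hs : ∑ i, r i = 1) (hadm : Admissible r) (hnt : ¬ TwoLetter r) :
    ∀ i, ∃ s : ℚ, (s : ℝ) = r i := by
  rcases core (pure () : Ultrafilter Unit) (fun _ => r) (fun _ => h0) (fun _ => hs)
    (fun _ => hadm) with ⟨Q, hQ, h⟩ | h
  · have h1 := h.exists
    obtain ⟨_, h1⟩ := h1
    intro i
    obtain ⟨z, hz⟩ := h1 i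
    have hQr : (Q : ℝ) ≠ 0 := by exact_mod_cast hQ.ne'
    refine ⟨(z : ℚ) / Q, ?_⟩
    push_cast
    rw [div_eq_iff hQr, ← hz]
    ring
  · obtain ⟨_, h1⟩ := h.exists
    exact absurd h1 hnt

/-- the exceptional set is finite -/
theorem exceptional_finite (n : ℕ) :
    {r : Fin n → ℝ | (∀ i, 0 < r i ∧ r i < 1) ∧ ∑ i, r i = 1 ∧ Admissible r ∧
      ¬ TwoLetter r}.Finite := by
  classical
  set E := {r : Fin n → ℝ | (∀ i, 0 < r i ∧ r i < 1) ∧ ∑ i, r i = 1 ∧ Admissible r ∧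
      ¬ TwoLetter r} with hE
  by_contra hinf
  have hinf' : E.Infinite := hinf
  have : Infinite E := hinf'.to_subtype
  have hmem : ∀ m : E, (∀ i, 0 < (m : Fin n → ℝ) i ∧ (m : Fin n → ℝ) i < 1) ∧
      ∑ i, (m : Fin n → ℝ) i = 1 ∧ Admissible (m : Fin n → ℝ) ∧ ¬ TwoLetter (m : Fin n → ℝ) :=
    fun m => m.2
  rcases core (Filter.hyperfilter E) (fun m => (m : Fin n → ℝ)) (fun m => (hmem m).1)
    (fun m => (hmem m).2.1) (fun m => (hmem m).2.2.1) with ⟨Q, hQ, h⟩ | h
  · have hQr : (0 : ℝ) < Q := by exact_mod_cast hQ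
    -- only finitely many such tuples
    have hfin : {m : E | ∀ i, ∃ z : ℤ, (Q : ℝ) * (m : Fin n → ℝ) i = z}.Finite := by
      have hsub : ∀ m : E, (∀ i, ∃ z : ℤ, (Q : ℝ) * (m : Fin n → ℝ) i = z) →
          ∃ w : Fin n → Fin (Q + 1), ∀ i, (Q : ℝ) * (m : Fin n → ℝ) i = (w i : ℕ) := by
        intro m hm
        choose z hz using hm
        have hz0 : ∀ i, 0 ≤ z i ∧ z i ≤ Q := by
          intro i
          have h1 := ((hmem m).1 i)
          have h2 : (0 : ℝ) ≤ z i := by rw [← hz i]; exact mul_nonneg hQr.le h1.1.le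
          have h3 : (z i : ℝ) ≤ Q := by rw [← hz i]; nlinarith [h1.2]
          exact ⟨by exact_mod_cast h2, by exact_mod_cast h3⟩
        refine ⟨fun i => ⟨(z i).toNat, by have := hz0 i; omega⟩, fun i => ?_⟩
        rw [hz i]
        have : ((z i).toNat : ℤ) = z i := Int.toNat_of_nonneg (hz0 i).1
        simp only
        exact_mod_cast this.symm
      choose! w hw using hsub
      apply Set.Finite.of_injOn (f := w) (t := Set.univ) (fun _ _ => Set.mem_univ _) _
        Set.finite_univ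
      intro m hm m' hm' heq
      apply Subtype.ext
      funext i
      have h1 := hw m hm i
      have h2 := hw m' hm' i
      rw [heq] at h1
      exact mul_left_cancel₀ hQr.ne' (by rw [h1, h2])
    have := hfin.compl_mem_hyperfilter
    have h2 : ∀ᶠ m in (Filter.hyperfilter E : Filter E), m ∉ {m : E | ∀ i, ∃ z : ℤ, (Q : ℝ) * (m : Fin n → ℝ) i = z} := this
    obtain ⟨m, hm1, hm2⟩ := (h.and h2).exists
    exact hm2 hm1
  · obtain ⟨m, hm⟩ := h.exists
    exact (hmem m).2.2.2 hm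

end Pool.Agent.Helper27.FKF
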